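import Pool.Agent.H95.FI.Defs

open MvPolynomial

namespace H59.FI

open H95.FG H95.FI

theorem t_PTS : S_PTS := by
  intro a m r q hr
  obtain ⟨b, hbs, hspan, hli⟩ := exists_linearIndependent ℂ (Set.range (ev q))
  have : Finite b := hli.setFinite
  have : Fintype b := Fintype.ofFinite b
  let M : Matrix b (Fin m) ℂ := Matrix.of fun (w : b) l => (w : Fin m → ℂ) l
  have hker : LinearMap.ker M.mulVecLin ≤ LinearMap.ker (Fintype.linearCombination ℂ q) := by
    intro c hc
    rw [LinearMap.mem_ker] at hc ⊢
    rw [Fintype.linearCombination_apply]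
    have h1 : ∀ w : Fin m → ℂ, w ∈ Submodule.span ℂ b → ∑ l, w l * c l = 0 := by
      intro w hw
      induction hw using Submodule.span_induction with
      | mem w hw =>
        have h2 := congrFun hc ⟨w, hw⟩
        simpa [M, Matrix.mulVec, dotProduct] using h2
      | zero => simp
      | add x y _ _ hx hy =>
        simp only [Pi.add_apply, add_mul, Finset.sum_add_distrib, hx, hy, add_zero]
      | smul k x _ hx =>
        simp only [Pi.smul_apply, smul_eq_mul, mul_assoc, ← Finset.mul_sum, hx, mul_zero]
    apply MvPolynomial.funext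
    intro x
    have h2 := h1 (ev q x) (by
      rw [hspan]
      exact Submodule.subset_span ⟨x, rfl⟩)
    rw [map_sum, map_zero, ← h2]
    apply Finset.sum_congr rfl
    intro l _
    rw [smul_eval]
    unfold ev
    ring
  have h1 := LinearMap.finrank_range_add_finrank_ker M.mulVecLin
  have h2 := LinearMap.finrank_range_add_finrank_ker (Fintype.linearCombination ℂ q)
  have h3 := Submodule.finrank_mono hker
  have h4 : Module.finrank ℂ (LinearMap.range M.mulVecLin) ≤ Fintype.card b := by
    have := Submodule.finrank_le (LinearMap.range M.mulVecLin)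
    rwa [Module.finrank_fintype_fun_eq_card] at this
  rw [Fintype.range_linearCombination] at h2
  have h5 : r ≤ Fintype.card b := by omega
  obtain ⟨e⟩ : Nonempty (Fin r ↪ b) :=
    Function.Embedding.nonempty_of_card_le (by rw [Fintype.card_fin]; exact h5)
  have h6 : ∀ k : Fin r, ∃ x, ev q x = (e k : Fin m → ℂ) := fun k => hbs (e k).2
  choose x hx using h6
  refine ⟨x, ?_⟩
  have h7 : (fun k => ev q (x k)) = (Subtype.val : b → Fin m → ℂ) ∘ e := by
    funext k
    exact hx k
  rw [h7]
  exact hli.comp e e.injective

end H59.FI
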