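import Pool.Agent.H95.FI.Defs

open MvPolynomial

namespace H59.FI

open H95.FG H95.FI

theorem t_SUBD : S_SUBD := by
  classical
  intro n a t z Y hta hatn hO
  -- the space of the vectors orthogonal to the `Y j`
  let M : Matrix (Fin t) (Fin n) ℂ := Matrix.of fun j k => Y j k
  let O : Submodule ℂ (Fin n → ℂ) := LinearMap.ker M.mulVecLin
  have hmem : ∀ w : Fin n → ℂ, w ∈ O ↔ ∀ j, dt w (Y j) = 0 := by
    intro w
    constructor
    · intro hw j
      have h1 : M.mulVecLin w = 0 := LinearMap.mem_ker.mp hw
      have h2 := congrFun h1 j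
      simp only [M, Matrix.mulVecLin_apply, Matrix.mulVec, dotProduct, Matrix.of_apply,
        Pi.zero_apply] at h2
      unfold dt
      rw [← h2]
      exact Finset.sum_congr rfl fun k _ => mul_comm _ _
    · intro hw
      apply LinearMap.mem_ker.mpr
      funext j
      have h2 := hw j
      simp only [M, Matrix.mulVecLin_apply, Matrix.mulVec, dotProduct, Matrix.of_apply,
        Pi.zero_apply]
      unfold dt at h2
      rw [← h2]
      exact Finset.sum_congr rfl fun k _ => mul_comm _ _
  have hdim : n ≤ Module.finrank ℂ O + t := by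
    have h1 := LinearMap.finrank_range_add_finrank_ker M.mulVecLin
    have h2 := Submodule.finrank_le (LinearMap.range M.mulVecLin)
    rw [Module.finrank_fintype_fun_eq_card, Fintype.card_fin] at h1 h2
    have h3 : Module.finrank ℂ O = Module.finrank ℂ (LinearMap.ker M.mulVecLin) := rfl
    omega
  -- a basis of the span of the `z i`
  obtain ⟨s0, hs0, hspan0, hli0⟩ := exists_linearIndependent ℂ (Set.range z)
  have hs0O : s0 ⊆ (O : Set (Fin n → ℂ)) := by
    intro w hw
    obtain ⟨i, rfl⟩ := hs0 hw
    exact (hmem _).mpr fun j => hO i j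
  obtain ⟨b, hbO, hsb, hspanb, hlib⟩ := exists_linearIndepOn_extension (v := id) (K := ℂ)
    (s := s0) (t := (O : Set (Fin n → ℂ))) hli0 hs0O
  have hfb : b.Finite := LinearIndependent.setFinite (R := ℂ) hlib
  have hf0 : s0.Finite := hfb.subset hsb
  have hc0 : hf0.toFinset.card ≤ a := by
    have h1 : hf0.toFinset ⊆ Finset.univ.image z := by
      intro w hw
      rw [Set.Finite.mem_toFinset] at hw
      obtain ⟨i, hi⟩ := hs0 hw
      exact Finset.mem_image.mpr ⟨i, Finset.mem_univ _, hi⟩
    have h2 := Finset.card_le_card h1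
    have h3 : (Finset.univ.image z).card ≤ t := by
      refine Finset.card_image_le.trans ?_
      simp
    omega
  have hcb : a ≤ hfb.toFinset.card := by
    have h1 : Module.finrank ℂ (Submodule.span ℂ ((hfb.toFinset : Finset (Fin n → ℂ)) : Set (Fin n → ℂ)))
        = hfb.toFinset.card := by
      apply finrank_span_finset_eq_card
      rw [Set.Finite.coe_toFinset]
      exact hlib
    have h2 : O ≤ Submodule.span ℂ ((hfb.toFinset : Finset (Fin n → ℂ)) : Set (Fin n → ℂ)) := by
      intro w hw
      have h3 := hspanb ⟨w, hw, rfl⟩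
      rw [Set.Finite.coe_toFinset]
      simpa using h3
    have h3 := Submodule.finrank_mono h2
    omega
  obtain ⟨c, h0c, hcb', hcard⟩ := Finset.exists_subsuperset_card_eq
    (show hf0.toFinset ⊆ hfb.toFinset from fun w hw => by
      rw [Set.Finite.mem_toFinset] at hw ⊢
      exact hsb hw) hc0 hcb
  let e := Finset.equivFinOfCardEq hcard
  refine ⟨fun i => ((e.symm i : c) : Fin n → ℂ), ?_, ?_, ?_⟩
  · have h1 : LinearIndependent ℂ (fun x : c => (x : Fin n → ℂ)) := by
      have h2 : (c : Set (Fin n → ℂ)) ⊆ b := fun w hw => by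
        have := hcb' hw
        rwa [Set.Finite.mem_toFinset] at this
      exact (hlib.mono h2)
    exact h1.comp e.symm e.symm.injective
  · intro i
    have h1 : z i ∈ Submodule.span ℂ s0 := by
      rw [hspan0]
      exact Submodule.subset_span ⟨i, rfl⟩
    refine Submodule.span_mono ?_ h1
    intro w hw
    have hwc : w ∈ c := h0c ((Set.Finite.mem_toFinset _).mpr hw)
    refine ⟨e ⟨w, hwc⟩, ?_⟩
    simp
  · intro i j
    have h1 : ((e.symm i : c) : Fin n → ℂ) ∈ b := by
      have := hcb' (e.symm i).2
      rwa [Set.Finite.mem_toFinset] at this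
    exact (hmem _).mp (hbO h1) j

end H59.FI
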